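import Mathlib
import Pool.Agent.H50.Lam2

set_option autoImplicit false

open Finset Matrix Pool.Agent.H50.Lam2

namespace Pool.Agent.Results.MP_67c61c_pr.Lazy

/-- `M` is row-stochastic and `π` is a stationary distribution of `M` with positive entries -/
def Chain {d : ℕ} (π : Fin d → ℝ) (M : Matrix (Fin d) (Fin d) ℝ) : Prop :=
  (∀ i j, 0 ≤ M i j) ∧ (∀ i, ∑ j, M i j = 1) ∧ (∀ i, 0 < π i) ∧ ∑ i, π i = 1 ∧
    ∀ j, ∑ i, π i * M i j = π j

/-- the time reversal `M*` -/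
noncomputable def rev {d : ℕ} (π : Fin d → ℝ) (M : Matrix (Fin d) (Fin d) ℝ) :
    Matrix (Fin d) (Fin d) ℝ := Matrix.of fun i j => π j * M j i / π i

/-- the multiplicative reversiblization `M† = M* M` -/
noncomputable def dag {d : ℕ} (π : Fin d → ℝ) (M : Matrix (Fin d) (Fin d) ℝ) :
    Matrix (Fin d) (Fin d) ℝ := rev π M * M

/-- the spectral gap -/
noncomputable def gap {d : ℕ} (A : Matrix (Fin d) (Fin d) ℝ) : ℝ := 1 - lam2 A

/-- the pseudo spectral gap -/
noncomputable def psgap {d : ℕ} (π : Fin d → ℝ) (M : Matrix (Fin d) (Fin d) ℝ) : ℝ :=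
  sSup {t | ∃ k : ℕ, 1 ≤ k ∧ t = gap (dag π (M ^ k)) / k}

/-- the lazy version -/
def lazy {d : ℕ} (α : ℝ) (M : Matrix (Fin d) (Fin d) ℝ) : Matrix (Fin d) (Fin d) ℝ :=
  α • (1 : Matrix (Fin d) (Fin d) ℝ) + (1 - α) • M

variable {d : ℕ} {π : Fin d → ℝ} {M : Matrix (Fin d) (Fin d) ℝ}

/-- squared norm of `L²(π)` -/
def nrm (π z : Fin d → ℝ) : ℝ := ∑ i, π i * z i ^ 2

theorem Chain.one (h : Chain π M) : Chain π 1 :=
  ⟨fun i j => by rw [one_apply]; split_ifs <;> norm_num, fun i => by simp [one_apply],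
    h.2.2.1, h.2.2.2.1, fun j => by simp [one_apply]⟩

theorem Chain.mul {N : Matrix (Fin d) (Fin d) ℝ} (h : Chain π M) (k : Chain π N) :
    Chain π (M * N) := by
  refine ⟨fun i j => ?_, fun i => ?_, h.2.2.1, h.2.2.2.1, fun j => ?_⟩
  · rw [mul_apply]; exact sum_nonneg fun l _ => mul_nonneg (h.1 _ _) (k.1 _ _)
  · simp only [mul_apply]
    rw [sum_comm]
    simp only [← mul_sum, k.2.1, mul_one, h.2.1]
  · simp only [mul_apply, mul_sum]
    rw [sum_comm]
    simp only [← mul_assoc, ← sum_mul, h.2.2.2.2, k.2.2.2.2]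

theorem Chain.pow (h : Chain π M) (k : ℕ) : Chain π (M ^ k) := by
  induction k with
  | zero => rw [pow_zero]; exact h.one
  | succ k ih => rw [pow_succ]; exact ih.mul h

theorem Chain.lazy (h : Chain π M) {α : ℝ} (h0 : 0 ≤ α) (h1 : α ≤ 1) : Chain π (lazy α M) := by
  refine ⟨fun i j => ?_, fun i => ?_, h.2.2.1, h.2.2.2.1, fun j => ?_⟩
  · simp only [Lazy.lazy, Matrix.add_apply, Matrix.smul_apply, smul_eq_mul]
    exact add_nonneg (mul_nonneg h0 (h.one.1 i j)) (mul_nonneg (by linarith) (h.1 i j))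
  · simp only [Lazy.lazy, Matrix.add_apply, Matrix.smul_apply, smul_eq_mul, sum_add_distrib, ← mul_sum,
      h.one.2.1, h.2.1]
    ring
  · simp only [Lazy.lazy, Matrix.add_apply, Matrix.smul_apply, smul_eq_mul, mul_add, sum_add_distrib,
      mul_left_comm (π _), ← mul_sum, h.one.2.2.2.2, h.2.2.2.2]
    ring

/-- Jensen's inequality for a row split into a scalar part and a matrix part -/
theorem jensen (β a : ℝ) (r z : Fin d → ℝ) (hβ : 0 ≤ β) (hr : ∀ j, 0 ≤ r j)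
    (hs : β + ∑ j, r j = 1) : (β * a + ∑ j, r j * z j) ^ 2 ≤ β * a ^ 2 + ∑ j, r j * z j ^ 2 := by
  set t := β * a + ∑ j, r j * z j with ht
  have h1 : 0 ≤ β * (a - t) ^ 2 + ∑ j, r j * (z j - t) ^ 2 :=
    add_nonneg (by positivity) (sum_nonneg fun j _ => mul_nonneg (hr j) (sq_nonneg _))
  have h2 : ∑ j, r j * (z j - t) ^ 2 =
      ∑ j, r j * z j ^ 2 - 2 * t * ∑ j, r j * z j + t ^ 2 * ∑ j, r j := by
    rw [mul_sum, mul_sum, ← sum_sub_distrib, ← sum_add_distrib]
    exact sum_congr rfl fun j _ => by ring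
  rw [h2, show ∑ j, r j = 1 - β by linarith, show ∑ j, r j * z j = t - β * a by linarith] at h1
  nlinarith

theorem nrm_split {A B : Matrix (Fin d) (Fin d) ℝ} (hA : Chain π A) (hB : Chain π B) {β : ℝ}
    (hβ : 0 ≤ β) (hle : ∀ i j, β * B i j ≤ A i j) (z : Fin d → ℝ) :
    nrm π (A *ᵥ z) ≤ β * nrm π (B *ᵥ z) + (1 - β) * nrm π z := by
  have h1 : ∀ i, (A *ᵥ z) i ^ 2 ≤ β * (B *ᵥ z) i ^ 2 + ∑ j, (A i j - β * B i j) * z j ^ 2 := by
    intro i
    have := jensen β ((B *ᵥ z) i) (fun j => A i j - β * B i j) z hβ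
      (fun j => sub_nonneg.2 (hle i j))
      (by rw [sum_sub_distrib, ← mul_sum, hA.2.1, hB.2.1]; ring)
    refine le_trans (le_of_eq ?_) this
    congr 1
    simp only [mulVec, dotProduct, mul_sum, ← sum_add_distrib]
    exact sum_congr rfl fun j _ => by ring
  unfold nrm
  calc ∑ i, π i * (A *ᵥ z) i ^ 2
      ≤ ∑ i, π i * (β * (B *ᵥ z) i ^ 2 + ∑ j, (A i j - β * B i j) * z j ^ 2) :=
        sum_le_sum fun i _ => mul_le_mul_of_nonneg_left (h1 i) (hA.2.2.1 i).le
    _ = _ := by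
        simp only [mul_add, sum_add_distrib, mul_sum]
        congr 1
        · exact sum_congr rfl fun i _ => by ring
        · rw [sum_comm]
          refine sum_congr rfl fun j _ => ?_
          have : ∀ i, π i * ((A i j - β * B i j) * z j ^ 2) =
              (π i * A i j - β * (π i * B i j)) * z j ^ 2 := fun i => by ring
          simp only [this]
          rw [← sum_mul, sum_sub_distrib, ← mul_sum, hA.2.2.2.2, hB.2.2.2.2]
          ring

theorem nrm_le (h : Chain π M) (z : Fin d → ℝ) : nrm π (M *ᵥ z) ≤ nrm π z := by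
  simpa using nrm_split h h le_rfl (fun i j => by simpa using h.1 i j) z

theorem nrm_nonneg (h : Chain π M) (z : Fin d → ℝ) : 0 ≤ nrm π z :=
  sum_nonneg fun i _ => mul_nonneg (h.2.2.1 i).le (sq_nonneg _)

theorem sym (h : Chain π M) : ∃ S : Matrix (Fin d) (Fin d) ℝ, S.IsHermitian ∧
    lam2 (dag π M) = lam2 S ∧ S *ᵥ (fun i => √(π i)) = (fun i => √(π i)) ∧
    ∀ z : Fin d → ℝ, (fun i => √(π i) * z i) ⬝ᵥ (S *ᵥ fun i => √(π i) * z i) = nrm π (M *ᵥ z) := by
  have hp : ∀ i, 0 < √(π i) := fun i => Real.sqrt_pos.2 (h.2.2.1 i)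
  have hsq : ∀ i, √(π i) * √(π i) = π i := fun i => Real.mul_self_sqrt (h.2.2.1 i).le
  set D : Matrix (Fin d) (Fin d) ℝ := diagonal fun i => √(π i) with hD
  set E : Matrix (Fin d) (Fin d) ℝ := diagonal fun i => (√(π i))⁻¹ with hE
  have hDE : D * E = 1 := by
    rw [hD, hE, diagonal_mul_diagonal, ← diagonal_one]
    congr 1; funext i; exact mul_inv_cancel₀ (hp i).ne'
  have hEz : ∀ z : Fin d → ℝ, E *ᵥ (fun i => √(π i) * z i) = z := fun z => by
    funext i; rw [hE, mulVec_diagonal]; exact inv_mul_cancel_left₀ (hp i).ne' _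
  have hrev : rev π M = E * (E * Mᵀ * D) * D := by
    ext i j
    simp only [rev, of_apply, hD, hE, mul_diagonal, diagonal_mul, transpose_apply]
    have := (hp i).ne'
    conv_lhs => rw [← hsq i, ← hsq j]
    field_simp
  have hT : (D * M * E)ᵀ = E * Mᵀ * D := by
    rw [transpose_mul, transpose_mul, hD, hE, diagonal_transpose, diagonal_transpose,
      Matrix.mul_assoc]
  refine ⟨(D * M * E)ᵀ * (D * M * E), ?_, ?_, ?_, fun z => ?_⟩
  · simpa using isHermitian_conjTranspose_mul_self (D * M * E)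
  · have : dag π M = E * (((D * M * E)ᵀ * (D * M * E)) * D) := by
      have hED : E * D = 1 := mul_eq_one_comm.1 hDE
      rw [dag, hrev, hT]
      simp only [Matrix.mul_assoc, hED, Matrix.mul_one]
    unfold lam2
    rw [this, charpoly_mul_comm, Matrix.mul_assoc, hDE, Matrix.mul_one]
  · have h1 : (D * M * E) *ᵥ (fun i => √(π i)) = fun i => √(π i) := by
      have := hEz (fun _ => 1)
      simp only [mul_one] at this
      rw [← mulVec_mulVec, this, ← mulVec_mulVec]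
      funext i
      rw [hD, mulVec_diagonal]
      simp [mulVec, dotProduct, h.2.1]
    rw [← mulVec_mulVec, h1, hT, ← mulVec_mulVec, ← mulVec_mulVec]
    funext i
    rw [hE, mulVec_diagonal]
    have : (Mᵀ *ᵥ D *ᵥ fun i => √(π i)) i = π i := by
      rw [← h.2.2.2.2 i, mulVec, dotProduct]
      refine sum_congr rfl fun j _ => ?_
      rw [hD, mulVec_diagonal, hsq, transpose_apply, mul_comm]
    rw [this, inv_mul_eq_iff_eq_mul₀ (hp i).ne', hsq]
  · rw [← mulVec_mulVec, dotProduct_mulVec, vecMul_transpose, ← mulVec_mulVec, hEz,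
      ← mulVec_mulVec, dotProduct, nrm]
    refine sum_congr rfl fun i _ => ?_
    rw [hD, mulVec_diagonal]
    linear_combination (M *ᵥ z) i ^ 2 * hsq i

theorem conv (h : Chain π M) (z : Fin d → ℝ) :
    (fun i => √(π i) * z i) ⬝ᵥ (fun i => √(π i) * z i) = nrm π z ∧
      (fun i => √(π i) * z i) ⬝ᵥ (fun i => √(π i)) = ∑ i, π i * z i := by
  have hsq : ∀ i, √(π i) * √(π i) = π i := fun i => Real.mul_self_sqrt (h.2.2.1 i).le
  exact ⟨sum_congr rfl fun i _ => by linear_combination z i ^ 2 * hsq i,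
    sum_congr rfl fun i _ => by linear_combination z i * hsq i⟩

theorem surj (h : Chain π M) (x : Fin d → ℝ) : ∃ z : Fin d → ℝ, x = fun i => √(π i) * z i :=
  ⟨fun i => (√(π i))⁻¹ * x i, funext fun i =>
    (mul_inv_cancel_left₀ (Real.sqrt_pos.2 (h.2.2.1 i)).ne' _).symm⟩

theorem lam_le (hd : 2 ≤ d) (h : Chain π M) (c : ℝ)
    (hc : ∀ z, ∑ i, π i * z i = 0 → nrm π (M *ᵥ z) ≤ c * nrm π z) : lam2 (dag π M) ≤ c := by
  obtain ⟨S, hS, h1, -, h3⟩ := sym h
  rw [h1]
  refine lam2_le hd hS (fun i => √(π i)) c fun x hx => ?_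
  obtain ⟨z, rfl⟩ := surj h x
  rw [h3, (conv h z).1]
  exact hc z ((conv h z).2 ▸ hx)

theorem le_lam (hd : 2 ≤ d) (h : Chain π M) (z : Fin d → ℝ) (hz : ∑ i, π i * z i = 0) :
    nrm π (M *ᵥ z) ≤ lam2 (dag π M) * nrm π z := by
  obtain ⟨S, hS, h1, h2, h3⟩ := sym h
  rw [h1, ← h3, ← (conv h z).1]
  refine le_lam2 hd hS (fun i => √(π i)) (fun h0 => ?_) h2 (fun x => ?_) _ ((conv h z).2.trans hz)
  · exact (Real.sqrt_pos.2 (h.2.2.1 ⟨0, by omega⟩)).ne' (congrFun h0 _)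
  · obtain ⟨z, rfl⟩ := surj h x
    rw [h3, (conv h z).1]
    exact nrm_le h z

theorem gap_nonneg (hd : 2 ≤ d) (h : Chain π M) : 0 ≤ gap (dag π M) :=
  sub_nonneg.2 (lam_le hd h 1 fun z _ => by rw [one_mul]; exact nrm_le h z)

theorem gap_le_one (hd : 2 ≤ d) (h : Chain π M) : gap (dag π M) ≤ 1 := by
  let a : Fin d := ⟨0, by omega⟩
  let b : Fin d := ⟨1, by omega⟩
  have hab : a ≠ b := by simp [a, b]
  have hs : ∀ f : Fin d → ℝ → ℝ, (∀ i, f i 0 = 0) →
      ∑ i, f i ((Pi.single a (π b) + Pi.single b (-π a) : Fin d → ℝ) i) =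
        f a (π b) + f b (-π a) := by
    intro f hf
    rw [Fintype.sum_eq_add a b hab]
    · simp [hab, hab.symm]
    · intro i hi
      simp [hi.1, hi.2, hf]
  have h1 := le_lam hd h (Pi.single a (π b) + Pi.single b (-π a))
    ((hs (fun i t => π i * t) (by simp)).trans (by ring))
  have h2 : 0 < nrm π (Pi.single a (π b) + Pi.single b (-π a)) := by
    have := hs (fun i t => π i * t ^ 2) (by simp)
    rw [nrm, this]
    have := h.2.2.1 a
    have := h.2.2.1 b
    positivity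
  have h3 := (nrm_nonneg h _).trans h1
  have := nonneg_of_mul_nonneg_left h3 h2
  rw [gap]; linarith

theorem lazy_pow_ge (h : Chain π M) {α : ℝ} (h0 : 0 ≤ α) (h1 : α ≤ 1) (k : ℕ) :
    ∀ i j, (1 - α) ^ k * (M ^ k) i j ≤ (lazy α M ^ k) i j := by
  induction k with
  | zero => simp
  | succ k ih =>
    intro i j
    rw [pow_succ M, pow_succ (lazy α M), mul_apply, mul_apply, mul_sum]
    refine sum_le_sum fun l _ => ?_
    have h2 : (1 - α) * M l j ≤ lazy α M l j := by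
      simp only [Lazy.lazy, Matrix.add_apply, Matrix.smul_apply, smul_eq_mul]
      linarith [mul_nonneg h0 (h.one.1 l j)]
    calc (1 - α) ^ (k + 1) * ((M ^ k) i l * M l j)
        = ((1 - α) ^ k * (M ^ k) i l) * ((1 - α) * M l j) := by ring
      _ ≤ _ := mul_le_mul (ih i l) h2 (mul_nonneg (by linarith) (h.1 l j))
          (((h.lazy h0 h1).pow k).1 i l)

theorem gap_lazy (hd : 2 ≤ d) (h : Chain π M) {α : ℝ} (h0 : 0 ≤ α) (h1 : α ≤ 1) (k : ℕ) :
    (1 - α) ^ k * gap (dag π (M ^ k)) ≤ gap (dag π (lazy α M ^ k)) := by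
  have hβ : 0 ≤ (1 - α) ^ k := pow_nonneg (by linarith) k
  have := lam_le hd ((h.lazy h0 h1).pow k)
    ((1 - α) ^ k * lam2 (dag π (M ^ k)) + (1 - (1 - α) ^ k)) fun z hz => by
      have a := nrm_split ((h.lazy h0 h1).pow k) (h.pow k) hβ (lazy_pow_ge h h0 h1 k) z
      have b := mul_le_mul_of_nonneg_left (le_lam hd (h.pow k) z hz) hβ
      linarith
  unfold gap
  linarith

theorem bdd (hd : 2 ≤ d) (h : Chain π M) :
    BddAbove {t | ∃ k : ℕ, 1 ≤ k ∧ t = gap (dag π (M ^ k)) / k} := by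
  refine ⟨1, ?_⟩
  rintro _ ⟨k, hk, rfl⟩
  have : (1 : ℝ) ≤ k := by exact_mod_cast hk
  rw [div_le_one (by linarith)]
  exact (gap_le_one hd (h.pow k)).trans this

theorem psgap_nonneg (hd : 2 ≤ d) (h : Chain π M) : 0 ≤ psgap π M :=
  le_trans (by simpa using gap_nonneg hd h) (le_csSup (bdd hd h) ⟨1, le_rfl, rfl⟩)

/-- `γ_ps(L_α(M)) ≥ f(α, γ_ps(M))` for the positive function `f(α, g) = (1 - α)^{1/g} g`. -/
theorem result :
    (∀ α g : ℝ, α < 1 → 0 < g → 0 < (1 - α) ^ (1 / g) * g) ∧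
    ∀ (d : ℕ), 2 ≤ d → ∀ (π : Fin d → ℝ) (M : Matrix (Fin d) (Fin d) ℝ), Chain π M →
      ∀ α : ℝ, 0 < α → α < 1 →
        (1 - α) ^ (1 / psgap π M) * psgap π M ≤ psgap π (lazy α M) := by
  refine ⟨fun α g h1 hg => mul_pos (Real.rpow_pos_of_pos (by linarith) _) hg,
    fun d hd π M h α h0 h1 => ?_⟩
  have hL := h.lazy h0.le h1.le
  rcases (psgap_nonneg hd h).eq_or_lt with hg | hg
  · rw [← hg, mul_zero]; exact psgap_nonneg hd hL
  have key : ∀ t, 0 < t → t < psgap π M → (1 - α) ^ (1 / t) * t ≤ psgap π (lazy α M) := by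
    intro t ht hlt
    obtain ⟨_, ⟨k, hk, rfl⟩, hk2⟩ := exists_lt_of_lt_csSup
      (s := {t | ∃ k : ℕ, 1 ≤ k ∧ t = gap (dag π (M ^ k)) / k}) ⟨_, 1, le_rfl, rfl⟩ hlt
    have hk' : (1 : ℝ) ≤ k := by exact_mod_cast hk
    refine le_trans ?_ (le_csSup (bdd hd hL) ⟨k, hk, rfl⟩)
    have h2 : (k : ℝ) ≤ 1 / t := by
      rw [lt_div_iff₀ (by linarith)] at hk2
      rw [le_div_iff₀ ht]
      linarith [gap_le_one hd (h.pow k)]
    have h3 : (1 - α) ^ (1 / t) ≤ (1 - α) ^ k := by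
      rw [← Real.rpow_natCast]
      exact Real.rpow_le_rpow_of_exponent_ge (by linarith) (by linarith) h2
    calc (1 - α) ^ (1 / t) * t ≤ (1 - α) ^ k * (gap (dag π (M ^ k)) / k) :=
          mul_le_mul h3 hk2.le ht.le (pow_nonneg (by linarith) k)
      _ = (1 - α) ^ k * gap (dag π (M ^ k)) / k := by ring
      _ ≤ _ := div_le_div_of_nonneg_right (gap_lazy hd h h0.le h1.le k) (by linarith)
  have hcont : ContinuousAt (fun t : ℝ => (1 - α) ^ (1 / t) * t) (psgap π M) := by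
    refine ContinuousAt.mul ?_ continuousAt_id
    exact ContinuousAt.rpow continuousAt_const
      (continuousAt_const.div continuousAt_id hg.ne') (Or.inl (by linarith))
  refine le_of_tendsto (hcont.tendsto.mono_left (nhdsWithin_le_nhds (s := Set.Iio (psgap π M)))) ?_
  filter_upwards [Ioo_mem_nhdsLT hg] with t ht using key t ht.1 ht.2

end Pool.Agent.Results.MP_67c61c_pr.Lazy
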